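import Pool.Agent.W997.UF.Det
import Pool.Agent.W997.TS.Asym

/-!
# Asymptotics: alphabet `(2 n) ^ (512 n)`
-/

set_option autoImplicit false

namespace Pool.Agent.W997.UF

open Finset
open Pool.Agent.W997.TS
open Pool.Agent.H554R2.Thrifty (BP exists_params_shell)

theorem card_var_le' {d k n : ℕ} (hd : 2 ≤ d) (hk : d ^ n ≤ k ^ d) (hk1 : 1 ≤ k) :
    Fintype.card (Var d k n) ≤ d ^ n * k ^ d := by
  rw [card_var]
  have h1 := card_inner_le (n := n) hd
  obtain ⟨c, hc⟩ : ∃ c, d ^ n = c + 1 := ⟨d ^ n - 1, by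
    have : 1 ≤ d ^ n := Nat.one_le_pow _ _ (by omega)
    omega⟩
  have h3 : Fintype.card {v : List (Fin d) // v.length < n} ≤ c := by omega
  calc Fintype.card {v : List (Fin d) // v.length < n} * k ^ d + d ^ n
      ≤ c * k ^ d + k ^ d := Nat.add_le_add (Nat.mul_le_mul_right _ h3) hk
    _ = (c + 1) * k ^ d := by ring
    _ = d ^ n * k ^ d := by rw [hc]

theorem le_card_var' {d k n : ℕ} (hn : 1 ≤ n) : k ^ d ≤ Fintype.card (Var d k n) := by
  rw [card_var]
  have := one_le_card_inner (d := d) hn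
  calc k ^ d = 1 * k ^ d := (one_mul _).symm
    _ ≤ Fintype.card {v : List (Fin d) // v.length < n} * k ^ d := Nat.mul_le_mul_right _ this
    _ ≤ _ := Nat.le_add_right _ _

theorem card_node_le' {d k n : ℕ} (hk : 1 ≤ k) :
    Fintype.card (Node d n) ≤ Fintype.card (Var d k n) := by
  classical
  have h1 : Fintype.card (Node d n) ≤
      Fintype.card ({v : List (Fin d) // v.length < n} ⊕ {v : List (Fin d) // v.length = n}) := by
    refine Fintype.card_le_of_injective (fun v : Node d n =>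
      if h : v.1.length < n then (Sum.inl ⟨v.1, h⟩ :
        {v : List (Fin d) // v.length < n} ⊕ {v : List (Fin d) // v.length = n})
      else Sum.inr ⟨v.1, le_antisymm v.2 (not_lt.1 h)⟩) ?_
    intro v w h
    apply Subtype.ext
    simp only at h
    split_ifs at h with h1 h2 h2
    · simpa using h
    · simpa using h
  refine h1.trans ?_
  rw [Fintype.card_sum, card_leaf, card_var]
  apply Nat.add_le_add_right
  exact Nat.le_mul_of_pos_right _ (by positivity)

/-- The unambiguous program. -/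
theorem unamb (d n : ℕ) (hd : 2 ≤ d) (hn : 8 * d + 11 ≤ n) :
    ∃ M : BP (Var d ((2 * n) ^ (512 * n)) n) ((2 * n) ^ (512 * n)),
      M.Unambiguous ∧ M.Solves (fun x => bit (rootValue x)) ∧
      (∀ x l r, M.IsComp x l r → l.length ≤ (16 * d + 1) ^ n + 1) ∧
      M.size ≤ (2 * n) ^ (1536 * n * d) := by
  set b : ℕ := 2 * n with hb
  have hb22 : 22 ≤ b := by omega
  have hb1 : 1 ≤ b := by omega
  set k : ℕ := b ^ (512 * n) with hk
  have hk1 : 1 ≤ k := Nat.one_le_pow _ _ (by omega)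
  have hL : 2 ^ 10 ≤ b ^ 8 := by
    calc 2 ^ 10 ≤ 22 ^ 8 := by norm_num
      _ ≤ b ^ 8 := Nat.pow_le_pow_left hb22 8
  have hkL : k ≤ ((b ^ 8) ^ ((10 - 2) * n)) ^ 8 := by
    rw [hk, ← pow_mul, ← pow_mul]
    apply Nat.pow_le_pow_right hb1
    omega
  obtain ⟨P, hP0, hPn⟩ := exists_params_shell k 8 10 n (b ^ 8) n (by norm_num) (by omega) hL hkL
  obtain ⟨M, h1, h2, h3, h4⟩ := exists_BP (d := d) (n := n) P (by omega) hk1 hPn
  refine ⟨M, h1, h2, ?_, ?_⟩
  · intro x l r h
    refine (h3 x l r h).trans (le_of_eq ?_)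
    ring
  · refine h4.trans ?_
    have e1 : P.B 0 ≤ b ^ (117 * n) := by
      rw [hP0]
      have f1 : 2 * b ^ 8 * (n + 1) ≤ b ^ 10 := by
        calc 2 * b ^ 8 * (n + 1) = b ^ 8 * (2 * n + 2) := by ring
          _ ≤ b ^ 8 * b ^ 2 := Nat.mul_le_mul_left _ (by nlinarith)
          _ = b ^ 10 := by ring
      have f2 : 2 * 10 * (b ^ 8) ^ 2 + 2 ≤ b ^ 17 := by
        have f3 : 1 ≤ b ^ 16 := Nat.one_le_pow _ _ (by omega)
        calc 2 * 10 * (b ^ 8) ^ 2 + 2 = 20 * b ^ 16 + 2 := by ring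
          _ ≤ 22 * b ^ 16 := by omega
          _ ≤ b * b ^ 16 := Nat.mul_le_mul_right _ hb22
          _ = b ^ 17 := by ring
      calc (2 * b ^ 8 * (n + 1)) ^ (10 * n) * (2 * 10 * (b ^ 8) ^ 2 + 2) ^ n
          ≤ (b ^ 10) ^ (10 * n) * (b ^ 17) ^ n :=
            Nat.mul_le_mul (Nat.pow_le_pow_left f1 _) (Nat.pow_le_pow_left f2 _)
        _ = b ^ (117 * n) := by
            rw [← pow_mul, ← pow_mul, ← pow_add]
            congr 1
            ring
    have e2 : (2 * (d * 8) + 1) ^ n ≤ b ^ n := Nat.pow_le_pow_left (by omega) n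
    have e3 : k ^ d * P.B 0 ^ (d * 8 + 1) ≤ b ^ (512 * n * d) * b ^ (117 * n * (d * 8 + 1)) := by
      apply Nat.mul_le_mul
      · rw [hk, ← pow_mul]
      · rw [pow_mul b (117 * n)]
        exact Nat.pow_le_pow_left e1 _
    have e4 : 1 ≤ b ^ n * (b ^ (512 * n * d) * b ^ (117 * n * (d * 8 + 1))) := by
      have : 0 < b := by omega
      have h5 : 0 < b ^ n * (b ^ (512 * n * d) * b ^ (117 * n * (d * 8 + 1))) := by positivity
      exact h5
    calc (2 * (d * 8) + 1) ^ n * (k ^ d * P.B 0 ^ (d * 8 + 1)) + 3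
        ≤ b ^ n * (b ^ (512 * n * d) * b ^ (117 * n * (d * 8 + 1))) + 3 := by
          apply Nat.add_le_add_right
          exact Nat.mul_le_mul e2 e3
      _ ≤ b * (b ^ n * (b ^ (512 * n * d) * b ^ (117 * n * (d * 8 + 1)))) := by
          nlinarith
      _ = b ^ (1 + n + 512 * n * d + 117 * n * (d * 8 + 1)) := by
          rw [pow_add, pow_add, pow_add, pow_one]
          ring
      _ ≤ b ^ (1536 * n * d) := by
          apply Nat.pow_le_pow_right hb1
          have : 2 * n ≤ n * d := by nlinarith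
          nlinarith

end Pool.Agent.W997.UF
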