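import Pool.Agent.W997.UF.ToBP
import Pool.Agent.W997.TS.Fast

/-!
# Deterministic programs in the two formats
-/

set_option autoImplicit false

namespace Pool.Agent.W997.UF

open Pool.Agent.W997.TS
open Pool.Agent.H554R2.Thrifty (BP)

variable {V : Type} {k : ℕ}

/-- The function form of a deterministic program. -/
noncomputable def toDBP (P : BP V k) (hP : P.Deterministic) : DBP V k where
  State := P.State
  start := P.start
  query := P.query
  next := fun q c => (hP q c).choose

theorem toDBP_next (P : BP V k) (hP : P.Deterministic) (q : P.State) (c : Fin k)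
    (t : P.State ⊕ Bool) (h : P.edge q c t) : (toDBP P hP).next q c = t := by
  have h1 := (hP q c).choose_spec
  exact (h1.2 t h).symm

theorem toDBP_isPath (P : BP V k) (hP : P.Deterministic) (x : V → Fin k) (r : Bool) :
    ∀ (l : List P.State) (q : P.State), P.IsPath x (q :: l) r →
      (toDBP P hP).IsPath x q l r
  | [], q, h => toDBP_next P hP q _ _ h
  | q' :: l, q, h => ⟨toDBP_next P hP q _ _ h.1, toDBP_isPath P hP x r l q' h.2⟩

theorem toDBP_run [DecidableEq V] (P : BP V k) (hP : P.Deterministic) (x : V → Fin k)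
    (l : List P.State) (r : Bool) (h : P.IsComp x l r) :
    (toDBP P hP).Run x l.length (l.map P.query).toFinset.card r := by
  obtain ⟨h1, h2⟩ := h
  cases l with
  | nil => exact h2.elim
  | cons q l =>
    have hq : q = P.start := Option.some.inj h1
    subst hq
    exact ⟨l, toDBP_isPath P hP x r l _ h2, rfl, rfl⟩

theorem toDBP_size (P : BP V k) (hP : P.Deterministic) : (toDBP P hP).size ≤ P.size := by
  unfold DBP.size BP.size
  exact Nat.le_add_right _ _

/-- The relational form of a program. -/
def ofDBP (P : DBP V k) : BP V k where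
  State := P.State
  start := P.start
  query := P.query
  edge := fun q c t => P.next q c = t

theorem ofDBP_det (P : DBP V k) : (ofDBP P).Deterministic :=
  fun q c => ⟨P.next q c, rfl, fun _ h => h.symm⟩

theorem ofDBP_isPath (P : DBP V k) (x : V → Fin k) (r : Bool) :
    ∀ (l : List P.State) (q : P.State), (ofDBP P).IsPath x (q :: l) r ↔ P.IsPath x q l r
  | [], q => Iff.rfl
  | q' :: l, q => by
    constructor
    · rintro ⟨h1, h2⟩
      exact ⟨h1, (ofDBP_isPath P x r l q').1 h2⟩
    · rintro ⟨h1, h2⟩
      exact ⟨h1, (ofDBP_isPath P x r l q').2 h2⟩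

theorem ofDBP_comp [DecidableEq V] (P : DBP V k) (x : V → Fin k) {t m : ℕ} {r : Bool}
    (h : P.Run x t m r) :
    (∃ l, (ofDBP P).IsComp x l r) ∧
      ∀ l r', (ofDBP P).IsComp x l r' → r' = r ∧ l.length = t := by
  obtain ⟨l, h1, h2, h3⟩ := h
  refine ⟨⟨P.start :: l, rfl, (ofDBP_isPath P x r l _).2 h1⟩, ?_⟩
  rintro l' r' ⟨h4, h5⟩
  cases l' with
  | nil => exact h5.elim
  | cons q l' =>
    have hq : q = P.start := Option.some.inj h4
    subst hq
    obtain ⟨h6, h7⟩ := path_unique P l' l _ ((ofDBP_isPath P x r' l' _).1 h5) h1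
    subst h6
    exact ⟨h7, h2⟩

theorem ofDBP_size (P : DBP V k) : (ofDBP P).size = P.size + 2 := rfl

end Pool.Agent.W997.UF
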