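import Pool.Agent.W997.UF.Asym

/-!
# Deterministic versus unambiguous programs which read few variables
-/

set_option autoImplicit false

namespace Pool.Agent.W997.UF

open Finset
open Pool.Agent.W997.TS
open Pool.Agent.H554R2.Thrifty (BP)

theorem separation (δ : ℝ) (hδ : 0 < δ) : ∃ d : ℕ, 2 ≤ d ∧ ∃ ε : ℝ, 0 < ε ∧ ∃ c : ℝ, 0 < c ∧
    ∃ n₀ : ℕ, ∀ n : ℕ, n₀ ≤ n → ∀ k : ℕ, k = (2 * n) ^ (512 * n) →
      ∀ N : ℕ, N = Fintype.card (Var d k n) →
      (∃ P : BP (Var d k n) k, P.Unambiguous ∧ P.Solves (fun x => bit (rootValue x)) ∧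
        P.size ≤ N ^ 3 ∧ ∀ x l r, P.IsComp x l r → (l.length : ℝ) ≤ (N : ℝ) ^ δ) ∧
      (∃ P : BP (Var d k n) k, P.Deterministic ∧ P.Solves (fun x => bit (rootValue x)) ∧
        Real.log P.size ≤ (Real.log N) ^ 2 / Real.log (Real.log N) ∧
        ∀ x l r, P.IsComp x l r → (l.length : ℝ) ≤ (N : ℝ) ^ δ) ∧
      (∀ P : BP (Var d k n) k, P.Deterministic →
        Real.log P.size ≤ ε * ((Real.log N) ^ 2 / Real.log (Real.log N)) →
        ∀ (L : Input d k n → List P.State) (R : Input d k n → Bool),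
        (∀ x, P.IsComp x (L x) (R x)) →
        (1 / 2 + (N : ℝ) ^ (-c)) * Fintype.card (Input d k n) ≤
          (univ.filter (fun x => R x = bit (rootValue x))).card →
        (N : ℝ) ^ (1 - δ) * Fintype.card (Input d k n) ≤
          ∑ x, (((L x).map P.query).toFinset.card : ℝ)) := by
  set δ' : ℝ := min δ (1 / 2) with hδ'
  have hδ'0 : 0 < δ' := lt_min hδ (by norm_num)
  have hδ'1 : δ' ≤ 1 / 2 := min_le_right _ _
  have hδ'δ : δ' ≤ δ := min_le_left _ _
  set d : ℕ := ⌈2 / δ'⌉₊ with hd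
  have hdδ : 2 ≤ δ' * d := by
    have h1 : 2 / δ' ≤ d := Nat.le_ceil _
    rw [div_le_iff₀ hδ'0] at h1
    linarith
  have hdR4 : (4 : ℝ) ≤ d := by nlinarith
  have hd4 : 4 ≤ d := by exact_mod_cast hdR4
  have hd2 : 2 ≤ d := by omega
  have hd0 : (0 : ℝ) < d := by linarith
  refine ⟨d, hd2, 1 / (512 * (d : ℝ) + 1) ^ 2, by positivity,
    128 / (512 * (d : ℝ) + 1), by positivity, 512 * d + 13, ?_⟩
  intro n hn k hk N hN
  have hn1 : 1 ≤ n := by omega
  have hnR : (512 * (d : ℝ) + 13) ≤ n := by exact_mod_cast hn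
  have hnR1 : (1 : ℝ) ≤ n := by exact_mod_cast hn1
  set b : ℕ := 2 * n with hb
  have hbR : (b : ℝ) = 2 * n := by rw [hb]; push_cast; ring
  have hb1 : 1 ≤ b := by omega
  have hbR1 : (1 : ℝ) < b := by rw [hbR]; linarith
  have hbR0 : (0 : ℝ) < b := by linarith
  have hk1 : 1 ≤ k := by rw [hk]; exact Nat.one_le_pow _ _ (by omega)
  have hkd : k ^ d = b ^ (512 * n * d) := by rw [hk, ← pow_mul]
  have hdn : d ^ n ≤ b ^ n := Nat.pow_le_pow_left (by omega) n
  have hdk : d ^ n ≤ k := by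
    rw [hk]
    exact hdn.trans (Nat.pow_le_pow_right hb1 (by omega))
  have hNge : b ^ (512 * n * d) ≤ N := by
    rw [hN, ← hkd]
    exact le_card_var' hn1
  have hNle : N ≤ b ^ (n * (512 * d + 1)) := by
    rw [hN]
    refine (card_var_le' hd2 ?_ hk1).trans ?_
    · calc d ^ n ≤ k := hdk
        _ = k ^ 1 := (pow_one _).symm
        _ ≤ k ^ d := Nat.pow_le_pow_right hk1 (by omega)
    · calc d ^ n * k ^ d ≤ b ^ n * b ^ (512 * n * d) := by
            rw [hkd]
            exact Nat.mul_le_mul_right _ hdn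
        _ = b ^ (n * (512 * d + 1)) := by
            rw [← pow_add]
            congr 1
            ring
  have hN1 : 1 ≤ N := le_trans (Nat.one_le_pow _ _ (by omega)) hNge
  have hN1R : (1 : ℝ) ≤ N := by exact_mod_cast hN1
  have hN0R : (0 : ℝ) < N := by linarith
  -- real powers of `b`
  have hNleR : (N : ℝ) ≤ (b : ℝ) ^ ((n : ℝ) * (512 * d + 1)) := by
    have h3 : (b : ℝ) ^ ((n : ℝ) * (512 * d + 1)) = ((b ^ (n * (512 * d + 1)) : ℕ) : ℝ) := by
      rw [Nat.cast_pow, ← Real.rpow_natCast]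
      push_cast
      rfl
    rw [h3]
    exact_mod_cast hNle
  have hNgeR : (b : ℝ) ^ ((512 : ℝ) * n * d) ≤ N := by
    have h3 : (b : ℝ) ^ ((512 : ℝ) * n * d) = ((b ^ (512 * n * d) : ℕ) : ℝ) := by
      rw [Nat.cast_pow, ← Real.rpow_natCast]
      push_cast
      rfl
    rw [h3]
    exact_mod_cast hNge
  set ℓ := Real.log b with hℓ
  have hℓ1 : 1 ≤ ℓ := by
    rw [hℓ, Real.le_log_iff_exp_le hbR0]
    have := Real.exp_one_lt_d9
    rw [hbR]
    linarith
  have hℓ0 : 0 < ℓ := by linarith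
  have hlogN : Real.log N ≤ n * (512 * d + 1) * ℓ := by
    calc Real.log N ≤ Real.log ((b : ℝ) ^ ((n : ℝ) * (512 * d + 1))) :=
          Real.log_le_log hN0R hNleR
      _ = n * (512 * d + 1) * ℓ := Real.log_rpow hbR0 _
  have hlogN' : 512 * n * d * ℓ ≤ Real.log N := by
    calc 512 * n * d * ℓ = Real.log ((b : ℝ) ^ ((512 : ℝ) * n * d)) :=
          (Real.log_rpow hbR0 _).symm
      _ ≤ Real.log N := Real.log_le_log (by positivity) hNgeR
  have hlogNb : (b : ℝ) ≤ Real.log N := by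
    refine le_trans ?_ hlogN'
    rw [hbR]
    have h1 : (1 : ℝ) ≤ d * ℓ := by nlinarith
    calc (2 : ℝ) * n ≤ 512 * n * 1 := by linarith
      _ ≤ 512 * n * (d * ℓ) := mul_le_mul_of_nonneg_left h1 (by positivity)
      _ = 512 * n * d * ℓ := by ring
  have hlogN0 : 0 < Real.log N := lt_of_lt_of_le hbR0 hlogNb
  have hLL : ℓ ≤ Real.log (Real.log N) := Real.log_le_log hbR0 hlogNb
  have hLL0 : 0 < Real.log (Real.log N) := lt_of_lt_of_le hℓ0 hLL
  have hLL3 : Real.log (Real.log N) ≤ 3 * ℓ := by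
    have h1 : Real.log N ≤ (b : ℝ) ^ 3 := by
      refine hlogN.trans ?_
      have h2 : (n : ℝ) ≤ b := by rw [hbR]; linarith
      have h3 : (512 * (d : ℝ) + 1) ≤ b := by rw [hbR]; linarith
      have h4 : ℓ ≤ b := by
        have := Real.log_le_sub_one_of_pos hbR0
        rw [hℓ]; linarith
      calc (n : ℝ) * (512 * d + 1) * ℓ ≤ b * b * b := by gcongr
        _ = (b : ℝ) ^ 3 := by ring
    calc Real.log (Real.log N) ≤ Real.log ((b : ℝ) ^ 3) := Real.log_le_log hlogN0 h1
      _ = 3 * ℓ := by rw [Real.log_pow]; push_cast; ring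
  -- the time bound
  have htime : (b : ℝ) ^ (n : ℝ) ≤ (N : ℝ) ^ δ := by
    calc (b : ℝ) ^ (n : ℝ) ≤ (b : ℝ) ^ (((512 : ℝ) * n * d) * δ') := by
          apply Real.rpow_le_rpow_of_exponent_le hbR1.le
          have h1 : (1 : ℝ) ≤ δ' * d := by linarith
          nlinarith
      _ = ((b : ℝ) ^ ((512 : ℝ) * n * d)) ^ δ' := Real.rpow_mul hbR0.le _ _
      _ ≤ (N : ℝ) ^ δ' := Real.rpow_le_rpow (by positivity) hNgeR hδ'0.le
      _ ≤ (N : ℝ) ^ δ := Real.rpow_le_rpow_of_exponent_le hN1R hδ'δ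
  refine ⟨?_, ?_, ?_⟩
  · -- the unambiguous program
    obtain ⟨M, h1, h2, h3, h4⟩ := unamb d n hd2 (by omega)
    subst hk
    refine ⟨M, h1, h2, ?_, ?_⟩
    · refine h4.trans ?_
      calc (2 * n) ^ (1536 * n * d) = (b ^ (512 * n * d)) ^ 3 := by
            rw [← pow_mul]
            congr 1
            ring
        _ ≤ N ^ 3 := Nat.pow_le_pow_left hNge 3
    · intro x l r h
      refine le_trans ?_ htime
      have h5 := h3 x l r h
      have h6 : (16 * d + 1) ^ n < b ^ n := Nat.pow_lt_pow_left (by omega) (by omega)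
      have h7 : l.length ≤ b ^ n := by omega
      rw [Real.rpow_natCast]
      exact_mod_cast h7
  · -- the fast deterministic program
    refine ⟨ofDBP (fast d k n (by omega) (by omega)), ofDBP_det _, ?_, ?_, ?_⟩
    · intro x
      obtain ⟨m, -, hrun⟩ := fast_run (d := d) (k := k) (n := n) (by omega) (by omega) x
      obtain ⟨h1, h2⟩ := ofDBP_comp _ x hrun
      exact ⟨h1, fun l r h => (h2 l r h).1⟩
    · have h1 : (ofDBP (fast d k n (by omega) (by omega))).size ≤ N ^ (n + 3) := by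
        rw [ofDBP_size, fast_size]
        have h3 : 2 ≤ N := by
          have : 2 ^ 1 ≤ b ^ (512 * n * d) := by
            calc 2 ^ 1 ≤ b ^ 1 := Nat.pow_le_pow_left (by omega) 1
              _ ≤ b ^ (512 * n * d) := Nat.pow_le_pow_right hb1 (by
                have : 1 ≤ n * d := Nat.one_le_iff_ne_zero.2 (by positivity)
                nlinarith)
          omega
        have h4 : Fintype.card (Node d n) * (k ^ d) ^ (n + 1) ≤ N ^ (n + 2) := by
          calc Fintype.card (Node d n) * (k ^ d) ^ (n + 1) ≤ N * N ^ (n + 1) := by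
                apply Nat.mul_le_mul
                · rw [hN]; exact card_node_le' hk1
                · apply Nat.pow_le_pow_left
                  rw [hkd]; exact hNge
            _ = N ^ (n + 2) := by ring
        have h5 : 2 ≤ N ^ (n + 2) := by
          calc 2 ≤ N := h3
            _ = N ^ 1 := (pow_one _).symm
            _ ≤ N ^ (n + 2) := Nat.pow_le_pow_right hN1 (by omega)
        calc Fintype.card (Node d n) * (k ^ d) ^ (n + 1) + 2 ≤ N ^ (n + 2) + N ^ (n + 2) :=
              Nat.add_le_add h4 h5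
          _ = 2 * N ^ (n + 2) := by ring
          _ ≤ N * N ^ (n + 2) := Nat.mul_le_mul_right _ h3
          _ = N ^ (n + 3) := by ring
      have h0 : 0 < (ofDBP (fast d k n (by omega) (by omega))).size := by
        rw [ofDBP_size]; omega
      have h2 : Real.log (ofDBP (fast d k n (by omega) (by omega))).size ≤
          (n + 3) * Real.log N := by
        calc Real.log (ofDBP (fast d k n (by omega) (by omega))).size
            ≤ Real.log ((N : ℝ) ^ (n + 3)) := by
              apply Real.log_le_log (by exact_mod_cast h0)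
              exact_mod_cast h1
          _ = (n + 3) * Real.log N := by rw [Real.log_pow]; push_cast; ring
      refine h2.trans ?_
      rw [le_div_iff₀ hLL0]
      have h3 : ((n : ℝ) + 3) * Real.log (Real.log N) ≤ Real.log N := by
        calc ((n : ℝ) + 3) * Real.log (Real.log N) ≤ (n + 3) * (3 * ℓ) :=
              mul_le_mul_of_nonneg_left hLL3 (by linarith)
          _ ≤ 512 * n * d * ℓ := by
              have h4 : ((n : ℝ) + 3) * 3 ≤ 512 * n * d := by nlinarith
              calc ((n : ℝ) + 3) * (3 * ℓ) = ((n + 3) * 3) * ℓ := by ring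
                _ ≤ (512 * n * d) * ℓ := mul_le_mul_of_nonneg_right h4 hℓ0.le
          _ ≤ Real.log N := hlogN'
      calc ((n : ℝ) + 3) * Real.log N * Real.log (Real.log N)
          = (((n : ℝ) + 3) * Real.log (Real.log N)) * Real.log N := by ring
        _ ≤ Real.log N * Real.log N := mul_le_mul_of_nonneg_right h3 hlogN0.le
        _ = (Real.log N) ^ 2 := by ring
    · intro x l r h
      obtain ⟨m, -, hrun⟩ := fast_run (d := d) (k := k) (n := n) (by omega) (by omega) x
      obtain ⟨-, h2⟩ := ofDBP_comp _ x hrun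
      rw [(h2 l r h).2]
      refine le_trans ?_ htime
      have h3 := cnt_le d hd2 n
      have h4 : d ^ (n + 1) ≤ b ^ n := by
        calc d ^ (n + 1) = d * d ^ n := by ring
          _ ≤ 2 ^ n * d ^ n := by
              apply Nat.mul_le_mul_right
              have : d ≤ n := by omega
              exact this.trans (Nat.lt_two_pow_self).le
          _ = (2 * d) ^ n := by rw [mul_pow]
          _ ≤ b ^ n := Nat.pow_le_pow_left (by omega) n
      have h5 : cnt d n ≤ b ^ n := by omega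
      rw [Real.rpow_natCast]
      exact_mod_cast h5
  · -- small deterministic programs read many variables
    intro P hdet hS L R hcomp hag
    set I : ℕ := Fintype.card (Input d k n) with hI
    set γ : ℝ := (N : ℝ) ^ (-(128 / (512 * (d : ℝ) + 1))) with hγ
    have hγ0 : 0 < γ := Real.rpow_pos_of_pos hN0R _
    have hγge : (b : ℝ) ^ (-(128 * (n : ℝ))) ≤ γ := by
      calc (b : ℝ) ^ (-(128 * (n : ℝ))) =
            ((b : ℝ) ^ ((n : ℝ) * (512 * d + 1))) ^ (-(128 / (512 * (d : ℝ) + 1))) := by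
            rw [← Real.rpow_mul hbR0.le]
            congr 1
            field_simp
        _ ≤ (N : ℝ) ^ (-(128 / (512 * (d : ℝ) + 1))) := by
            apply Real.rpow_le_rpow_of_nonpos hN0R hNleR
            have : 0 < 128 / (512 * (d : ℝ) + 1) := by positivity
            linarith
    have hγ2 : (b : ℝ) ^ (-(256 * (n : ℝ))) ≤ γ ^ 2 := by
      calc (b : ℝ) ^ (-(256 * (n : ℝ))) = ((b : ℝ) ^ (-(128 * (n : ℝ)))) ^ 2 := by
            rw [← Real.rpow_natCast, ← Real.rpow_mul hbR0.le]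
            congr 1
            push_cast
            ring
        _ ≤ γ ^ 2 := pow_le_pow_left₀ (by positivity) hγge 2
    have hsz : (toDBP P hdet).size ≤ k * (b ^ n) ^ n := by
      refine (toDBP_size P hdet).trans ?_
      have hP0 : 0 < P.size := by unfold BP.size; omega
      have h1 : Real.log P.size ≤ Real.log ((b : ℝ) ^ (n * n)) := by
        refine hS.trans ?_
        have h2 : (Real.log N) ^ 2 ≤ (n * (512 * d + 1) * ℓ) ^ 2 :=
          pow_le_pow_left₀ hlogN0.le hlogN 2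
        have h3 : (Real.log N) ^ 2 / Real.log (Real.log N) ≤
            (n * (512 * d + 1) * ℓ) ^ 2 / ℓ := by
          apply div_le_div₀ (by positivity) h2 hℓ0 hLL
        calc 1 / (512 * (d : ℝ) + 1) ^ 2 * ((Real.log N) ^ 2 / Real.log (Real.log N))
            ≤ 1 / (512 * (d : ℝ) + 1) ^ 2 * ((n * (512 * d + 1) * ℓ) ^ 2 / ℓ) :=
              mul_le_mul_of_nonneg_left h3 (by positivity)
          _ = (n * n : ℝ) * ℓ := by
              field_simp
          _ = Real.log ((b : ℝ) ^ (n * n)) := by rw [Real.log_pow]; push_cast; ring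
      have h2 : (P.size : ℝ) ≤ (b : ℝ) ^ (n * n) :=
        (Real.log_le_log_iff (by exact_mod_cast hP0) (by positivity)).1 h1
      have h3 : P.size ≤ b ^ (n * n) := by exact_mod_cast h2
      calc P.size ≤ b ^ (n * n) := h3
        _ = (b ^ n) ^ n := pow_mul _ _ _
        _ ≤ k * (b ^ n) ^ n := Nat.le_mul_of_pos_left _ (by omega)
    have hev : Even k := by
      rw [hk]
      apply Even.pow_of_ne_zero _ (by omega)
      exact even_two_mul n
    have hkR : (k : ℝ) = (b : ℝ) ^ (512 * (n : ℝ)) := by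
      rw [hk]
      push_cast
      rw [← Real.rpow_natCast]
      push_cast
      rw [hbR]
    have h4n : 4 * (n : ℝ) ≤ γ ^ 2 * (k : ℝ) := by
      calc 4 * (n : ℝ) = 2 * b := by rw [hbR]; ring
        _ ≤ b * b := mul_le_mul_of_nonneg_right (by rw [hbR]; linarith) hbR0.le
        _ = (b : ℝ) ^ (2 : ℝ) := by
            rw [show (2 : ℝ) = ((2 : ℕ) : ℝ) by norm_num, Real.rpow_natCast]; ring
        _ ≤ (b : ℝ) ^ (-(256 * (n : ℝ)) + 512 * (n : ℝ)) := by
            apply Real.rpow_le_rpow_of_exponent_le hbR1.le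
            linarith
        _ = (b : ℝ) ^ (-(256 * (n : ℝ))) * (b : ℝ) ^ (512 * (n : ℝ)) := Real.rpow_add hbR0 _ _
        _ ≤ γ ^ 2 * (b : ℝ) ^ (512 * (n : ℝ)) := mul_le_mul_of_nonneg_right hγ2 (by positivity)
        _ = γ ^ 2 * (k : ℝ) := by rw [hkR]
    have main := tradeoff d k n n (b ^ n) γ hγ0 hd2 hn1 le_rfl hev hdk h4n
      (Nat.one_le_pow _ _ (by omega)) (toDBP P hdet) hsz (fun x => (L x).length)
      (fun x => ((L x).map P.query).toFinset.card) R
      (fun x => toDBP_run P hdet x (L x) (R x) (hcomp x)) hag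
    rw [Nat.sub_self, pow_zero, mul_one] at main
    set S : ℝ := ∑ x, (((L x).map P.query).toFinset.card : ℝ) with hSdef
    have hSnn : (0 : ℝ) ≤ S := sum_nonneg fun x _ => by positivity
    have h16 : (4 : ℝ) * d * ((b ^ n : ℕ) : ℝ) ≤ (b : ℝ) ^ ((n : ℝ) + 2) := by
      have h1 : (b : ℝ) ^ ((n : ℝ) + 2) = (b : ℝ) ^ (n : ℝ) * (b * b) := by
        rw [Real.rpow_add hbR0, show (2 : ℝ) = ((2 : ℕ) : ℝ) by norm_num, Real.rpow_natCast,
          Real.rpow_natCast]
        ring
      rw [h1, Real.rpow_natCast]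
      push_cast
      have h2 : (4 : ℝ) * d ≤ b * b := by
        have h3 : (4 : ℝ) ≤ b := by rw [hbR]; linarith
        have h4 : (d : ℝ) ≤ b := by rw [hbR]; linarith
        exact mul_le_mul h3 h4 hd0.le hbR0.le
      have h3 : (0 : ℝ) ≤ (b : ℝ) ^ n := by positivity
      calc (4 : ℝ) * d * (b : ℝ) ^ n = (b : ℝ) ^ n * (4 * d) := by ring
        _ ≤ (b : ℝ) ^ n * (b * b) := mul_le_mul_of_nonneg_left h2 h3
    have main2 : γ ^ 2 * (k : ℝ) ^ (d - 1) * I ≤ (b : ℝ) ^ ((n : ℝ) + 2) * S :=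
      main.trans (mul_le_mul_of_nonneg_right h16 hSnn)
    -- the exponents
    have hexp : (N : ℝ) ^ (1 - δ) * (b : ℝ) ^ ((n : ℝ) + 2) ≤ γ ^ 2 * (k : ℝ) ^ (d - 1) := by
      have h1 : (N : ℝ) ^ (1 - δ) ≤ (b : ℝ) ^ (((n : ℝ) * (512 * d + 1)) * (1 - δ')) := by
        calc (N : ℝ) ^ (1 - δ) ≤ (N : ℝ) ^ (1 - δ') :=
              Real.rpow_le_rpow_of_exponent_le hN1R (by linarith)
          _ ≤ ((b : ℝ) ^ ((n : ℝ) * (512 * d + 1))) ^ (1 - δ') :=
              Real.rpow_le_rpow (by positivity) hNleR (by linarith)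
          _ = (b : ℝ) ^ (((n : ℝ) * (512 * d + 1)) * (1 - δ')) :=
              (Real.rpow_mul hbR0.le _ _).symm
      have h3 : (k : ℝ) ^ (d - 1) = (b : ℝ) ^ (512 * (n : ℝ) * ((d : ℝ) - 1)) := by
        rw [hkR, Real.rpow_mul hbR0.le (512 * (n : ℝ)), ← Real.rpow_natCast]
        congr 1
        rw [Nat.cast_sub (by omega : 1 ≤ d)]
        push_cast
        rfl
      rw [h3]
      calc (N : ℝ) ^ (1 - δ) * (b : ℝ) ^ ((n : ℝ) + 2)
          ≤ (b : ℝ) ^ (((n : ℝ) * (512 * d + 1)) * (1 - δ')) * (b : ℝ) ^ ((n : ℝ) + 2) :=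
            mul_le_mul_of_nonneg_right h1 (by positivity)
        _ = (b : ℝ) ^ (((n : ℝ) * (512 * d + 1)) * (1 - δ') + ((n : ℝ) + 2)) :=
            (Real.rpow_add hbR0 _ _).symm
        _ ≤ (b : ℝ) ^ (-(256 * (n : ℝ)) + 512 * (n : ℝ) * ((d : ℝ) - 1)) := by
            apply Real.rpow_le_rpow_of_exponent_le hbR1.le
            have h5 : (2 : ℝ) * n ≤ (δ' * d) * n := mul_le_mul_of_nonneg_right hdδ (by linarith)
            have h6 : 0 ≤ δ' * n := by positivity
            nlinarith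
        _ = (b : ℝ) ^ (-(256 * (n : ℝ))) * (b : ℝ) ^ (512 * (n : ℝ) * ((d : ℝ) - 1)) :=
            Real.rpow_add hbR0 _ _
        _ ≤ γ ^ 2 * (b : ℝ) ^ (512 * (n : ℝ) * ((d : ℝ) - 1)) :=
            mul_le_mul_of_nonneg_right hγ2 (by positivity)
    have hfin : (N : ℝ) ^ (1 - δ) * I * (b : ℝ) ^ ((n : ℝ) + 2) ≤
        S * (b : ℝ) ^ ((n : ℝ) + 2) := by
      calc (N : ℝ) ^ (1 - δ) * I * (b : ℝ) ^ ((n : ℝ) + 2)
          = ((N : ℝ) ^ (1 - δ) * (b : ℝ) ^ ((n : ℝ) + 2)) * I := by ring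
        _ ≤ (γ ^ 2 * (k : ℝ) ^ (d - 1)) * I :=
            mul_le_mul_of_nonneg_right hexp (by positivity)
        _ ≤ (b : ℝ) ^ ((n : ℝ) + 2) * S := main2
        _ = S * (b : ℝ) ^ ((n : ℝ) + 2) := by ring
    exact le_of_mul_le_mul_right hfin (by positivity)

end Pool.Agent.W997.UF
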