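import Pool.Agent.H554R2.Thrifty.Shell
import Pool.Agent.W997.TS.Defs

/-!
# The recursive unambiguous program for trees with fan-in `d`
-/

set_option autoImplicit false

namespace Pool.Agent.W997.UF

open Pool.Agent.W997.TS
open Pool.Agent.H554R2.Thrifty (Frag Params Rel SRel seqFrag good_seq BP)
open Pool.Agent.H554R2.Thrifty.Frag

/-- Digits of the values of the children. -/
abbrev D (d q : ℕ) : Type := Fin d × Fin q

/-- Memory blocks. -/
abbrev J (d q : ℕ) : Type := Option (D d q)

/-- Assignment of digits to the blocks different from `j`. -/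
def emb {d q : ℕ} (j : J d q) (e : D d q) : J d q := if some e = j then none else some e

theorem emb_ne {d q : ℕ} (j : J d q) (e : D d q) : emb j e ≠ j := by
  unfold emb
  split_ifs with h
  · rw [← h]; simp
  · exact h

theorem emb_inj {d q : ℕ} (j : J d q) : Function.Injective (emb j) := by
  intro e e' h
  unfold emb at h
  split_ifs at h with h1 h2 h2
  · exact Option.some.inj (h1.trans h2.symm)
  · exact Option.some.inj h

theorem emb_surj {d q : ℕ} (j : J d q) (i : J d q) (hi : i ≠ j) : ∃ e, emb j e = i := by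
  cases i with
  | some e =>
    refine ⟨e, ?_⟩
    unfold emb
    rw [if_neg hi]
  | none =>
    cases j with
    | none => exact absurd rfl hi
    | some e =>
      refine ⟨e, ?_⟩
      unfold emb
      rw [if_pos rfl]

/-- Relational form of the encodings. -/
def IsEnc {d k q : ℕ} (dg : Fin k → Fin q → ℕ) (f : ℕ → ℕ → ℕ) (j : J d q) (w : Fin d → Fin k)
    (a m : J d q → ℕ) : Prop :=
  m j = a j ∧ ∀ e : D d q, m (emb j e) = f (dg (w e.1) e.2) (a (emb j e))

/-- The fragment for a leaf. -/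
def leafFrag {V : Type} (k d q B : ℕ) (u : V) (j : J d q) (Ψ : Fin k → ℕ → ℕ → Prop) :
    Frag V k (J d q → ℕ) where
  Q := J d q → Fin B
  query := fun _ => u
  enter := fun a t => ∃ s : J d q → Fin B, t = Sum.inl s ∧ a = fun i => (s i : ℕ)
  step := fun s c t => ∃ b, t = Sum.inr b ∧ Rel B j (Ψ c) (fun i => (s i : ℕ)) b

/-- The fragment for the query of an inner node. -/
def queryFrag {V : Type} {k d q : ℕ} (dg : Fin k → Fin q → ℕ) (B : ℕ) (lf rg : ℕ → ℕ → ℕ)
    (u : (Fin d → Fin k) → V) (j : J d q)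
    (Ψ : Fin k → ℕ → ℕ → Prop) : Frag V k (J d q → ℕ) where
  Q := (Fin d → Fin k) × (J d q → Fin B)
  query := fun s => u s.1
  enter := fun m t => ∃ s : (Fin d → Fin k) × (J d q → Fin B), t = Sum.inl s ∧
    IsEnc dg lf j s.1 (fun i => (s.2 i : ℕ)) m
  step := fun s c t => ∃ b m, t = Sum.inr m ∧ Rel B j (Ψ c) (fun i => (s.2 i : ℕ)) b ∧
    IsEnc dg rg j s.1 b m

/-- The recursive program for the subtree of height `m` below the node `v`. -/
noncomputable def prog {k d q n : ℕ} (P : Params k q) : (m : ℕ) → (v : List (Fin d)) →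
    (hv : v.length + m = n) → J d q → (Fin k → ℕ → ℕ → Prop) → Frag (Var d k n) k (J d q → ℕ)
  | 0, v, hv, j, Ψ => leafFrag k d q (P.B 0) (Sum.inr ⟨v, hv⟩) j Ψ
  | m + 1, v, hv, j, Ψ =>
    comp (seqFrag (fun a => ∀ i, a i < P.B m)
        (fun e : D d q => prog (n := n) P m (e.1 :: v) (by rw [List.length_cons]; omega) (emb j e)
          (fun c y z => y < P.B (m + 1) ∧ z = P.lft m (P.dg c e.2) y))
        Finset.univ.toList)
      (comp (queryFrag P.dg (P.B (m + 1)) (P.lft m) (P.rgt m)
          (fun w => Sum.inl (⟨v, by omega⟩, w)) j Ψ)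
        (seqFrag (fun a => ∀ i, a i < P.B m)
          (fun e : D d q => prog (n := n) P m (e.1 :: v) (by rw [List.length_cons]; omega) (emb j e)
            (fun c y z => z < P.B (m + 1) ∧ y = P.rgt m (P.dg c e.2) z))
          Finset.univ.toList))

theorem good_leaf {V : Type} (k d q B : ℕ) (u : V) (j : J d q) (Ψ : Fin k → ℕ → ℕ → Prop)
    (x : V → Fin k) :
    (leafFrag k d q B u j Ψ).Good x (fun _ => True) (Rel B j (Ψ (x u))) ∧
      ∀ a l b, (leafFrag k d q B u j Ψ).Run x a l b → l.length = 1 := by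
  have key : ∀ a l b, (leafFrag k d q B u j Ψ).Run x a l b ↔
      ∃ s : J d q → Fin B, l = [s] ∧ a = (fun i => (s i : ℕ)) ∧
        Rel B j (Ψ (x u)) (fun i => (s i : ℕ)) b := by
    intro a l b
    constructor
    · rintro ⟨t, ⟨s, rfl, ha⟩, h⟩
      cases l with
      | nil => cases (h : (Sum.inl s : (J d q → Fin B) ⊕ (J d q → ℕ)) = Sum.inr b)
      | cons s' l =>
        obtain ⟨h1, t', ⟨b', rfl, h2⟩, h3⟩ := h
        have hs : s = s' := Sum.inl.inj h1
        subst hs
        cases l with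
        | nil =>
          have h3' : (Sum.inr b' : (leafFrag k d q B u j Ψ).Q ⊕ (J d q → ℕ)) = Sum.inr b := h3
          have hb : b' = b := Sum.inr.inj h3'
          subst hb
          exact ⟨s, rfl, ha, h2⟩
        | cons s'' l => exact absurd h3.1 (by simp)
    · rintro ⟨s, rfl, ha, h⟩
      exact ⟨Sum.inl s, ⟨s, rfl, ha⟩, rfl, Sum.inr b, ⟨b, rfl, h⟩, rfl⟩
  refine ⟨⟨?_, ?_, ?_⟩, ?_⟩
  · intro a l b h
    obtain ⟨s, rfl, ha, h1⟩ := (key a l b).1 h
    subst ha
    exact ⟨h1, fun _ _ => trivial⟩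
  · intro a b h
    refine ⟨[fun i => ⟨a i, h.1 i⟩], (key _ _ _).2 ⟨_, rfl, rfl, h⟩⟩
  · intro a b l l' h h'
    obtain ⟨s, rfl, ha, -⟩ := (key a l b).1 h
    obtain ⟨s', rfl, ha', -⟩ := (key a l' b).1 h'
    have : s = s' := by
      funext i
      have := congrFun (ha.symm.trans ha') i
      exact Fin.ext this
    rw [this]
  · intro a l b h
    obtain ⟨s, rfl, -⟩ := (key a l b).1 h
    rfl

theorem run_query {V : Type} {k d q : ℕ} (dg : Fin k → Fin q → ℕ) (B : ℕ) (lf rg : ℕ → ℕ → ℕ)
    (u : (Fin d → Fin k) → V) (j : J d q)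
    (Ψ : Fin k → ℕ → ℕ → Prop) (x : V → Fin k) (m m' : J d q → ℕ)
    (l : List (queryFrag dg B lf rg u j Ψ).Q) :
    (queryFrag dg B lf rg u j Ψ).Run x m l m' ↔
      ∃ s : (Fin d → Fin k) × (J d q → Fin B), l = [s] ∧
        IsEnc dg lf j s.1 (fun i => (s.2 i : ℕ)) m ∧
        ∃ b, Rel B j (Ψ (x (u s.1))) (fun i => (s.2 i : ℕ)) b ∧ IsEnc dg rg j s.1 b m' := by
  constructor
  · rintro ⟨t, ⟨s, rfl, ha⟩, h⟩
    cases l with
    | nil =>
      cases (h : (Sum.inl s : ((Fin d → Fin k) × (J d q → Fin B)) ⊕ (J d q → ℕ)) = Sum.inr m')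
    | cons s' l =>
      obtain ⟨h1, t', ⟨b', m'', rfl, h2, h4⟩, h3⟩ := h
      have hs : s = s' := Sum.inl.inj h1
      subst hs
      cases l with
      | nil =>
        have h3' : (Sum.inr m'' : (queryFrag dg B lf rg u j Ψ).Q ⊕ (J d q → ℕ)) = Sum.inr m' := h3
        have hb : m'' = m' := Sum.inr.inj h3'
        subst hb
        exact ⟨s, rfl, ha, b', h2, h4⟩
      | cons s'' l => exact absurd h3.1 (by simp)
  · rintro ⟨s, rfl, ha, b, h, h'⟩
    exact ⟨Sum.inl s, ⟨s, rfl, ha⟩, rfl, Sum.inr m', ⟨b, m', rfl, h, h'⟩, rfl⟩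

/-- Existence of encodings. -/
theorem exists_enc {d k q : ℕ} (dg : Fin k → Fin q → ℕ) (f : ℕ → ℕ → ℕ) (j : J d q)
    (w : Fin d → Fin k) (a : J d q → ℕ) : ∃ m, IsEnc dg f j w a m := by
  classical
  refine ⟨Function.extend (emb j) (fun e => f (dg (w e.1) e.2) (a (emb j e))) a, ?_, ?_⟩
  · rw [Function.extend_apply']
    rintro ⟨e, he⟩
    exact emb_ne j e he
  · intro e
    rw [(emb_inj j).extend_apply]

theorem len_seq {V : Type} {k : ℕ} {A E : Type} (valid : A → Prop) (C : E → Frag V k A)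
    (x : V → Fin k) (N : ℕ) (h : ∀ d a l b, (C d).Run x a l b → l.length ≤ N) :
    ∀ (ds : List E) (a : A) (l : List (seqFrag valid C ds).Q) (b : A),
      (seqFrag valid C ds).Run x a l b → l.length ≤ ds.length * N
  | [], a, l, b, hr => by
    obtain ⟨rfl, -⟩ := (run_idOn _ x a b l).1 hr
    exact Nat.zero_le _
  | d :: ds, a, l, b, hr => by
    obtain ⟨b', l1, l2, rfl, h1, h2⟩ := (run_comp _ _ x a b l).1 hr
    have e1 := h d _ _ _ h1
    have e2 := len_seq valid C x N h ds _ _ _ h2
    have e3 : (l1.map Sum.inl ++ l2.map Sum.inr :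
        List ((C d).Q ⊕ (seqFrag valid C ds).Q)).length = l1.length + l2.length := by simp
    refine (le_of_eq e3).trans ?_
    rw [List.length_cons]
    calc l1.length + l2.length ≤ N + ds.length * N := Nat.add_le_add e1 e2
      _ = (ds.length + 1) * N := by ring

theorem value_leaf {d k n : ℕ} (x : Input d k n) (v : List (Fin d)) (hv : v.length = n) :
    value x v hv.le = x (Sum.inr ⟨v, hv⟩) := by
  rw [value, dif_neg (by omega)]

theorem value_inner {d k n : ℕ} (x : Input d k n) (v : List (Fin d)) (hv : v.length < n) :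
    value x v hv.le = x (Sum.inl (⟨v, hv⟩, fun s => value x (s :: v) (by simpa using hv))) := by
  rw [value, dif_pos hv]

theorem good_prog {k d q n : ℕ} (P : Params k q) (x : Input d k n) : ∀ (m : ℕ)
    (v : List (Fin d)) (hv : v.length + m = n) (j : J d q) (Ψ : Fin k → ℕ → ℕ → Prop),
    (prog (n := n) P m v hv j Ψ).Good x (fun _ => True) (Rel (P.B m) j (Ψ (value x v (by omega)))) ∧
      ∀ a l b, (prog (n := n) P m v hv j Ψ).Run x a l b → l.length ≤ (2 * (d * q) + 1) ^ m
  | 0, v, hv, j, Ψ => by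
    have h := good_leaf k d q (P.B 0) (Sum.inr ⟨v, hv⟩ : Var d k n) j Ψ x
    rw [value_leaf x v (by omega)]
    refine ⟨h.1, fun a l b hr => ?_⟩
    refine (h.2 a l b hr).le.trans ?_
    rw [pow_zero]
  | m + 1, v, hv, j, Ψ => by
    have hvn : v.length < n := by omega
    set w : Fin d → Fin k := fun s => value x (s :: v) (by simpa using hvn) with hw
    have hval : value x v (by omega) = x (Sum.inl (⟨v, hvn⟩, w)) := value_inner x v hvn
    rw [hval]
    set CL := fun e : D d q => prog (n := n) P m (e.1 :: v) (by rw [List.length_cons]; omega) (emb j e)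
          (fun c y z => y < P.B (m + 1) ∧ z = P.lft m (P.dg c e.2) y)
      with hCL
    set CR := fun e : D d q => prog (n := n) P m (e.1 :: v) (by rw [List.length_cons]; omega) (emb j e)
          (fun c y z => z < P.B (m + 1) ∧ y = P.rgt m (P.dg c e.2) z)
      with hCR
    have gL := fun e : D d q => good_prog P x m (e.1 :: v) (by rw [List.length_cons]; omega)
      (emb j e) (fun c y z => y < P.B (m + 1) ∧ z = P.lft m (P.dg c e.2) y)
    have gR := fun e : D d q => good_prog P x m (e.1 :: v) (by rw [List.length_cons]; omega)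
      (emb j e) (fun c y z => z < P.B (m + 1) ∧ y = P.rgt m (P.dg c e.2) z)
    have sL : (seqFrag (fun a : J d q → ℕ => ∀ i, a i < P.B m) CL Finset.univ.toList).Good x
        (fun _ => True) (SRel (P.B m) (emb j)
          (fun e y z => y < P.B (m + 1) ∧ z = P.lft m (P.dg (w e.1) e.2) y)
          Finset.univ.toList) :=
      good_seq (emb j) (emb_inj j) (P.B m) _ CL (fun e => (gL e).1) Finset.univ.toList
        (Finset.nodup_toList _)
    have sR : (seqFrag (fun a : J d q → ℕ => ∀ i, a i < P.B m) CR Finset.univ.toList).Good x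
        (fun _ => True) (SRel (P.B m) (emb j)
          (fun e y z => z < P.B (m + 1) ∧ y = P.rgt m (P.dg (w e.1) e.2) z)
          Finset.univ.toList) :=
      good_seq (emb j) (emb_inj j) (P.B m) _ CR (fun e => (gR e).1) Finset.univ.toList
        (Finset.nodup_toList _)
    have tL := len_seq (fun a : J d q → ℕ => ∀ i, a i < P.B m) CL x _
      (fun e => (gL e).2) Finset.univ.toList
    have tR := len_seq (fun a : J d q → ℕ => ∀ i, a i < P.B m) CR x _
      (fun e => (gR e).2) Finset.univ.toList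
    set FL := seqFrag (fun a : J d q → ℕ => ∀ i, a i < P.B m) CL Finset.univ.toList with hFL
    set FR := seqFrag (fun a : J d q → ℕ => ∀ i, a i < P.B m) CR Finset.univ.toList with hFR
    set FQ := queryFrag P.dg (P.B (m + 1)) (P.lft m) (P.rgt m)
      (fun w => (Sum.inl (⟨v, hvn⟩, w) : Var d k n)) j Ψ with hFQ
    have hprog : prog P (m + 1) v hv j Ψ = comp FL (comp FQ FR) := rfl
    rw [hprog]
    have hmem : ∀ e : D d q, e ∈ (Finset.univ : Finset (D d q)).toList := by
      intro e; simp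
    have hlen : (Finset.univ : Finset (D d q)).toList.length = d * q := by
      rw [Finset.length_toList, Finset.card_univ, Fintype.card_prod, Fintype.card_fin,
        Fintype.card_fin]
    rw [hlen] at tL tR
    -- decomposition of runs
    have hrun : ∀ a l b, (comp FL (comp FQ FR)).Run x a l b →
        ∃ (l1 : List FL.Q) (l3 : List FR.Q) (m1 m' : J d q → ℕ)
          (s : J d q → Fin (P.B (m + 1))),
          l = l1.map Sum.inl ++ (([((w, s) : FQ.Q)] : List FQ.Q).map Sum.inl ++
            l3.map Sum.inr).map Sum.inr ∧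
          FL.Run x a l1 m1 ∧ FR.Run x m' l3 b ∧ (a = fun i => (s i : ℕ)) ∧
          IsEnc P.dg (P.lft m) j w a m1 ∧ IsEnc P.dg (P.rgt m) j w b m' ∧
          Rel (P.B (m + 1)) j (Ψ (x (Sum.inl (⟨v, hvn⟩, w)))) a b := by
      intro a l b h
      obtain ⟨m1, l1, l23, rfl, r1, r23⟩ := (run_comp _ _ x a b l).1 h
      obtain ⟨m', l2, l3, rfl, r2, r3⟩ := (run_comp _ _ x m1 b l23).1 r23
      obtain ⟨⟨w', s⟩, rfl, e1, b', e2, e3⟩ := (run_query _ _ _ _ _ _ _ _ _ _ _).1 r2
      obtain ⟨⟨u1, u2, u3, u4⟩, -⟩ := sL.sound _ _ _ r1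
      obtain ⟨⟨w1, w2, w3, w4⟩, -⟩ := sR.sound _ _ _ r3
      obtain ⟨e11, e12⟩ := e1
      obtain ⟨e31, e32⟩ := e3
      obtain ⟨e21, e22, e23, e24⟩ := e2
      simp only at e11 e12 e31 e32 e21 e22 e23 e24
      have hdig : ∀ e : D d q, P.dg (w e.1) e.2 = P.dg (w' e.1) e.2 := by
        intro e
        obtain ⟨u31, u32⟩ := u3 e (hmem e)
        obtain ⟨w31, w32⟩ := w3 e (hmem e)
        refine P.key m _ _ (a (emb j e)) (s (emb j e)) (b (emb j e)) (P.dg_lt _ _) (P.dg_lt _ _)
          u31 (s (emb j e)).2 w31 ?_ ?_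
        · rw [← u32, e12 e]
        · rw [← w32, e32 e, e24 _ (emb_ne j e)]
      have hvw : w = w' := by
        funext s'
        exact P.dg_inj _ _ (fun t => hdig (s', t))
      subst hvw
      have has : a = fun i => (s i : ℕ) := by
        funext i
        by_cases hi : i = j
        · subst hi
          rw [← e11]
          exact (u4 i (fun e _ => emb_ne i e)).symm
        · obtain ⟨e, rfl⟩ := emb_surj j i hi
          obtain ⟨u31, u32⟩ := u3 e (hmem e)
          refine P.lft_inj m _ _ _ (P.dg_lt (w e.1) e.2) u31 (s (emb j e)).2 ?_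
          rw [← u32, e12 e]
      have hbb : b' = b := by
        funext i
        by_cases hi : i = j
        · subst hi
          rw [← e31]
          exact (w4 i (fun e _ => emb_ne i e)).symm
        · obtain ⟨e, rfl⟩ := emb_surj j i hi
          obtain ⟨w31, w32⟩ := w3 e (hmem e)
          refine P.rgt_inj m _ _ _ (P.dg_lt (w e.1) e.2) (e22 _) w31 ?_
          rw [← w32, e32 e]
      subst hbb
      refine ⟨l1, l3, m1, m', s, rfl, r1, r3, has, ?_, ⟨e31, e32⟩, ?_⟩
      · rw [has]; exact ⟨e11, e12⟩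
      · rw [has]; exact ⟨e21, e22, e23, e24⟩
    refine ⟨⟨?_, ?_, ?_⟩, ?_⟩
    · intro a l b h
      obtain ⟨l1, l3, m1, m', s, rfl, r1, r3, has, e1, e2, hrel⟩ := hrun a l b h
      exact ⟨hrel, fun _ _ => trivial⟩
    · intro a b hab
      obtain ⟨h1, h2, h3, h4⟩ := hab
      obtain ⟨m1, hm⟩ := exists_enc P.dg (P.lft m) j w a
      obtain ⟨m', hm'⟩ := exists_enc P.dg (P.rgt m) j w b
      have hmB : ∀ i, m1 i < P.B m := by
        intro i
        by_cases hi : i = j
        · subst hi; rw [hm.1]; exact lt_of_lt_of_le (h1 i) (P.mono m)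
        · obtain ⟨e, rfl⟩ := emb_surj j i hi
          rw [hm.2]; exact P.lft_lt _ _ _ (P.dg_lt _ _) (h1 _)
      have hmB' : ∀ i, m' i < P.B m := by
        intro i
        by_cases hi : i = j
        · subst hi; rw [hm'.1]; exact lt_of_lt_of_le (h2 i) (P.mono m)
        · obtain ⟨e, rfl⟩ := emb_surj j i hi
          rw [hm'.2]; exact P.rgt_lt _ _ _ (P.dg_lt _ _) (h2 _)
      obtain ⟨l1, hl1⟩ := sL.complete a m1 ⟨fun i => lt_of_lt_of_le (h1 i) (P.mono m), hmB,
        fun e _ => ⟨h1 _, hm.2 e⟩, fun i hi => by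
          by_cases hij : i = j
          · subst hij; exact hm.1
          · obtain ⟨e, he⟩ := emb_surj j i hij
            exact absurd he (hi e (hmem e))⟩
      obtain ⟨l3, hl3⟩ := sR.complete m' b ⟨hmB', fun i => lt_of_lt_of_le (h2 i) (P.mono m),
        fun e _ => ⟨h2 _, hm'.2 e⟩, fun i hi => by
          by_cases hij : i = j
          · subst hij; exact hm'.1.symm
          · obtain ⟨e, he⟩ := emb_surj j i hij
            exact absurd he (hi e (hmem e))⟩
      refine ⟨_, (run_comp _ _ x a b _).2 ⟨m1, l1, _, rfl, hl1,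
        (run_comp _ _ x m1 b _).2 ⟨m', [(w, fun i => ⟨a i, h1 i⟩)], l3, rfl, ?_, hl3⟩⟩⟩
      exact (run_query _ _ _ _ _ _ _ _ _ _ _).2 ⟨(w, fun i => ⟨a i, h1 i⟩), rfl, hm, b,
        ⟨h1, h2, h3, h4⟩, hm'⟩
    · intro a b l l' h h'
      obtain ⟨l1, l3, m1, m', s, rfl, r1, r3, has, e1, e2, -⟩ := hrun a l b h
      obtain ⟨l1', l3', m2, m2', s', rfl, r1', r3', has', e1', e2', -⟩ := hrun a l' b h'
      have hss : s = s' := by
        funext i
        exact Fin.ext (congrFun (has.symm.trans has') i)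
      have hm : m1 = m2 := by
        funext i
        by_cases hi : i = j
        · subst hi; rw [e1.1, e1'.1]
        · obtain ⟨e, rfl⟩ := emb_surj j i hi
          rw [e1.2, e1'.2]
      have hm' : m' = m2' := by
        funext i
        by_cases hi : i = j
        · subst hi; rw [e2.1, e2'.1]
        · obtain ⟨e, rfl⟩ := emb_surj j i hi
          rw [e2.2, e2'.2]
      subst hss hm hm'
      rw [sL.unique _ _ _ _ r1 r1', sR.unique _ _ _ _ r3 r3']
    · intro a l b h
      obtain ⟨l1, l3, m1, m', s, rfl, r1, r3, -⟩ := hrun a l b h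
      have f1 := tL _ _ _ r1
      have f3 := tR _ _ _ r3
      have hone : 1 ≤ (2 * (d * q) + 1) ^ m := Nat.one_le_pow _ _ (by omega)
      have e4 : (l1.map Sum.inl ++ (([((w, s) : FQ.Q)] : List FQ.Q).map Sum.inl ++
            l3.map Sum.inr).map Sum.inr : List (FL.Q ⊕ (FQ.Q ⊕ FR.Q))).length =
            l1.length + (1 + l3.length) := by
        simp only [List.length_append, List.length_map, List.length_cons, List.length_nil,
          Nat.zero_add]
      refine (le_of_eq e4).trans ?_
      calc l1.length + (1 + l3.length)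
          ≤ d * q * (2 * (d * q) + 1) ^ m + ((2 * (d * q) + 1) ^ m +
            d * q * (2 * (d * q) + 1) ^ m) := by
            apply Nat.add_le_add f1
            apply Nat.add_le_add _ f3
            omega
        _ = (2 * (d * q) + 1) ^ (m + 1) := by ring

end Pool.Agent.W997.UF
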