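import Pool.Agent.W997.UF.Prog

/-!
# Size of the recursive program, and the branching program obtained from it
-/

set_option autoImplicit false

namespace Pool.Agent.W997.UF

open Pool.Agent.W997.TS
open Pool.Agent.H554R2.Thrifty (Frag Params Rel SRel seqFrag card_seq B_le BP toBP isComp_toBP)
open Pool.Agent.H554R2.Thrifty.Frag

theorem card_prog {k d q n : ℕ} (P : Params k q) (hk : 1 ≤ k) : ∀ (m : ℕ) (v : List (Fin d))
    (hv : v.length + m = n) (j : J d q) (Ψ : Fin k → ℕ → ℕ → Prop),
      Finite (prog (n := n) P m v hv j Ψ).Q ∧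
      Nat.card (prog (n := n) P m v hv j Ψ).Q ≤
        (2 * (d * q) + 1) ^ m * (k ^ d * P.B 0 ^ (d * q + 1))
  | 0, v, hv, j, Ψ => by
    have hq : (prog (n := n) P 0 v hv j Ψ).Q = (J d q → Fin (P.B 0)) := rfl
    rw [hq]
    refine ⟨inferInstance, ?_⟩
    rw [Nat.card_eq_fintype_card, Fintype.card_fun, Fintype.card_fin, Fintype.card_option,
      Fintype.card_prod, Fintype.card_fin, Fintype.card_fin, pow_zero, one_mul]
    exact Nat.le_mul_of_pos_left _ (by positivity)
  | m + 1, v, hv, j, Ψ => by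
    set X := k ^ d * P.B 0 ^ (d * q + 1) with hX
    have hlen : (Finset.univ : Finset (D d q)).toList.length = d * q := by
      rw [Finset.length_toList, Finset.card_univ, Fintype.card_prod, Fintype.card_fin,
        Fintype.card_fin]
    have h1 := card_seq (fun a : J d q → ℕ => ∀ i, a i < P.B m)
      (fun e : D d q => prog (n := n) P m (e.1 :: v) (by rw [List.length_cons]; omega) (emb j e)
          (fun c y z => y < P.B (m + 1) ∧ z = P.lft m (P.dg c e.2) y))
      ((2 * (d * q) + 1) ^ m * X) (fun e => card_prog P hk m _ _ _ _) Finset.univ.toList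
    have h2 := card_seq (fun a : J d q → ℕ => ∀ i, a i < P.B m)
      (fun e : D d q => prog (n := n) P m (e.1 :: v) (by rw [List.length_cons]; omega) (emb j e)
          (fun c y z => z < P.B (m + 1) ∧ y = P.rgt m (P.dg c e.2) z))
      ((2 * (d * q) + 1) ^ m * X) (fun e => card_prog P hk m _ _ _ _) Finset.univ.toList
    rw [hlen] at h1 h2
    obtain ⟨f1, c1⟩ := h1
    obtain ⟨f2, c2⟩ := h2
    have hq : (prog (n := n) P (m + 1) v hv j Ψ).Q =
      ((seqFrag (fun a : J d q → ℕ => ∀ i, a i < P.B m)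
      (fun e : D d q => prog (n := n) P m (e.1 :: v) (by rw [List.length_cons]; omega) (emb j e)
          (fun c y z => y < P.B (m + 1) ∧ z = P.lft m (P.dg c e.2) y))
          Finset.univ.toList).Q ⊕ (((Fin d → Fin k) × (J d q → Fin (P.B (m + 1)))) ⊕
        (seqFrag (fun a : J d q → ℕ => ∀ i, a i < P.B m)
      (fun e : D d q => prog (n := n) P m (e.1 :: v) (by rw [List.length_cons]; omega) (emb j e)
          (fun c y z => z < P.B (m + 1) ∧ y = P.rgt m (P.dg c e.2) z))
          Finset.univ.toList).Q)) := rfl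
    rw [hq]
    refine ⟨inferInstance, ?_⟩
    rw [Nat.card_sum, Nat.card_sum]
    have hmid : Nat.card ((Fin d → Fin k) × (J d q → Fin (P.B (m + 1)))) ≤ X := by
      rw [Nat.card_eq_fintype_card, Fintype.card_prod, Fintype.card_fun, Fintype.card_fun,
        Fintype.card_fin, Fintype.card_fin, Fintype.card_option,
        Fintype.card_prod, Fintype.card_fin, Fintype.card_fin, hX, Fintype.card_fin]
      exact Nat.mul_le_mul_left _ (Nat.pow_le_pow_left (B_le P (m + 1)) _)
    have hone : 1 ≤ (2 * (d * q) + 1) ^ m := Nat.one_le_pow _ _ (by omega)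
    calc _ ≤ d * q * ((2 * (d * q) + 1) ^ m * X) + (X + d * q * ((2 * (d * q) + 1) ^ m * X)) :=
          Nat.add_le_add c1 (Nat.add_le_add hmid c2)
      _ ≤ d * q * ((2 * (d * q) + 1) ^ m * X) +
          ((2 * (d * q) + 1) ^ m * X + d * q * ((2 * (d * q) + 1) ^ m * X)) := by
          have : X ≤ (2 * (d * q) + 1) ^ m * X := Nat.le_mul_of_pos_left _ hone
          omega
      _ = (2 * (d * q) + 1) ^ (m + 1) * X := by ring

/-- The unambiguous program for given parameters. -/
theorem exists_BP {k d q n : ℕ} (P : Params k q) (hd : 1 ≤ d) (hk : 1 ≤ k) (hB : 2 ≤ P.B n) :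
    ∃ M : BP (Var d k n) k, M.Unambiguous ∧ M.Solves (fun x => bit (rootValue x)) ∧
      (∀ x l r, M.IsComp x l r → l.length ≤ (2 * (d * q) + 1) ^ n + 1) ∧
      M.size ≤ (2 * (d * q) + 1) ^ n * (k ^ d * P.B 0 ^ (d * q + 1)) + 3 := by
  classical
  set Ψ : Fin k → ℕ → ℕ → Prop := fun c y z => y = 0 ∧ z = if bit c then 1 else 0 with hΨ
  have hv0 : ([] : List (Fin d)).length + n = n := by simp
  set F : Frag (Var d k n) k (J d q → ℕ) := prog (n := n) P n [] hv0 none Ψ with hF
  obtain ⟨hfin, hcard⟩ := card_prog (n := n) P hk n ([] : List (Fin d)) hv0 none Ψ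
  have : Finite F.Q := hfin
  set a0 : J d q → ℕ := fun _ => 0 with ha0
  set acc : (J d q → ℕ) → Bool := fun b => decide (b none = 1) with hacc
  have good := fun x : Input d k n => good_prog (n := n) P x n [] hv0 none Ψ
  have hroot : ∀ x : Input d k n, value x [] (by simp) = rootValue x := fun x => rfl
  set v0 : Var d k n := Sum.inr ⟨List.replicate n (⟨0, hd⟩ : Fin d), by simp⟩ with hv0'
  refine ⟨toBP F v0 a0 acc, ?_, ?_, ?_, ?_⟩
  · intro x l l' r r' h h'
    obtain ⟨l1, b, rfl, h1, h2⟩ := (isComp_toBP F _ a0 acc x r l).1 h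
    obtain ⟨l1', b', rfl, h1', h2'⟩ := (isComp_toBP F _ a0 acc x r' l').1 h'
    obtain ⟨⟨-, -, h3, h4⟩, -⟩ := (good x).1.sound _ _ _ h2
    obtain ⟨⟨-, -, h3', h4'⟩, -⟩ := (good x).1.sound _ _ _ h2'
    have hb : b = b' := by
      funext i
      by_cases hi : i = none
      · subst hi; rw [h3.2, h3'.2]
      · rw [h4 i hi, h4' i hi]
    subst hb
    rw [(good x).1.unique _ _ _ _ h2 h2', ← h1, ← h1']
    exact ⟨rfl, rfl⟩
  · intro x
    have hacc' : ∀ b : J d q → ℕ, b none = (if bit (rootValue x) then 1 else 0) →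
        acc b = bit (rootValue x) := by
      intro b hb
      simp only [hacc, hb]
      by_cases h : bit (rootValue x) = true
      · simp [h]
      · simp [h]
    constructor
    · set b : J d q → ℕ := fun i => if i = none then (if bit (rootValue x) then 1 else 0) else 0
        with hb
      have hR : Rel (P.B n) none (Ψ (value x [] (by simp))) a0 b := by
        refine ⟨fun i => by simp only [ha0]; omega, fun i => ?_, ⟨rfl, by simp [hb, hroot]⟩,
          fun i hi => by simp [hb, hi, ha0]⟩
        simp only [hb]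
        split_ifs <;> omega
      obtain ⟨l, hl⟩ := (good x).1.complete a0 b hR
      exact ⟨_, (isComp_toBP F _ a0 acc x _ _).2 ⟨l, b, rfl, hacc' b (by simp [hb]), hl⟩⟩
    · intro l r h
      obtain ⟨l1, b, rfl, h1, h2⟩ := (isComp_toBP F _ a0 acc x r l).1 h
      obtain ⟨⟨-, -, h3, h4⟩, -⟩ := (good x).1.sound _ _ _ h2
      rw [← h1]
      exact hacc' b h3.2
  · intro x l r h
    obtain ⟨l1, b, rfl, h1, h2⟩ := (isComp_toBP F _ a0 acc x r l).1 h
    have h3 := (good x).2 _ _ _ h2
    have h4 : (none :: l1.map some : List (Option F.Q)).length = l1.length + 1 := by simp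
    refine (le_of_eq h4).trans ?_
    omega
  · have h1 : (toBP F v0 a0 acc).size = Nat.card (Option F.Q) + 2 := by
      unfold BP.size
      rw [← Nat.card_eq_fintype_card]
      rfl
    have h2 : Nat.card (Option F.Q) = Nat.card F.Q + 1 := Finite.card_option
    have h3 : Nat.card F.Q = Nat.card (prog (n := n) P n ([] : List (Fin d)) hv0 none Ψ).Q := rfl
    omega

end Pool.Agent.W997.UF
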